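import Pool.Agent.H26.U.Stmts

/-!
# Project U (MP_0c7934_co), module BLK: the block construction
-/

namespace Pool.Agent.H34.U

open Matrix Pool.Agent.H26.U Pool.Agent.H54.Etf Pool.Agent.H37
open scoped Kronecker

set_option linter.unusedSectionVars false

variable {K : ℕ} {ι : Type} [Fintype ι] [DecidableEq ι]
  {H : Type} [AddCommGroup H] [Fintype H] [DecidableEq H]

/-- the part with the modes -/
noncomputable def Xm (F : FlatCAR K ι) (f : Fin K → H → ℂ) : Matrix (H × ι) (H × ι) ℂ :=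
  ∑ j, circulant (f j) ⊗ₖ F.φ j

/-- the constant part -/
noncomputable def Ym (F : FlatCAR K ι) (t : H) : Matrix (H × ι) (H × ι) ℂ :=
  (1 : Matrix H H ℂ) ⊗ₖ F.G + circulant (Pi.single t (1 : ℂ)) ⊗ₖ F.A

lemma Xm_sq (F : FlatCAR K ι) (f : Fin K → H → ℂ) : Xm F f * Xm F f = 0 := by
  have h1 : Xm F f * Xm F f + Xm F f * Xm F f = 0 := by
    have e : Xm F f * Xm F f = ∑ i, ∑ j, (circulant (f i) * circulant (f j)) ⊗ₖ (F.φ i * F.φ j) := by
      simp only [Xm, Finset.sum_mul, Finset.mul_sum, mul_kronecker_mul]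
      exact Finset.sum_comm
    calc Xm F f * Xm F f + Xm F f * Xm F f
        = (∑ i, ∑ j, (circulant (f i) * circulant (f j)) ⊗ₖ (F.φ i * F.φ j)) +
          ∑ i, ∑ j, (circulant (f j) * circulant (f i)) ⊗ₖ (F.φ j * F.φ i) := by
            conv_lhs => rw [e]
            congr 1
            exact Finset.sum_comm
      _ = ∑ i, ∑ j, (circulant (f i) * circulant (f j)) ⊗ₖ (F.φ i * F.φ j + F.φ j * F.φ i) := by
            rw [← Finset.sum_add_distrib]
            refine Finset.sum_congr rfl fun i _ => ?_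
            rw [← Finset.sum_add_distrib]
            refine Finset.sum_congr rfl fun j _ => ?_
            rw [circulant_mul_comm (f j) (f i), kronecker_add]
      _ = 0 := by
            refine Finset.sum_eq_zero fun i _ => Finset.sum_eq_zero fun j _ => ?_
            rw [F.φφ, kronecker_zero]
  have h2 : (2 : ℂ) • (Xm F f * Xm F f) = 0 := by rw [two_smul]; exact h1
  exact (smul_eq_zero.mp h2).resolve_left two_ne_zero

lemma Xm_conj (F : FlatCAR K ι) (f : Fin K → H → ℂ) :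
    (Xm F f)ᴴ = ∑ j, (circulant (f j))ᴴ ⊗ₖ (F.φ j)ᴴ := by
  simp only [Xm, conjTranspose_sum, conjTranspose_kronecker]

lemma circ_comm_conj (u v : H → ℂ) :
    (circulant v)ᴴ * circulant u = circulant u * (circulant v)ᴴ := by
  rw [conjTranspose_circulant]
  exact circulant_mul_comm _ _

lemma Xm_anti (F : FlatCAR K ι) (f : Fin K → H → ℂ) :
    Xm F f * (Xm F f)ᴴ + (Xm F f)ᴴ * Xm F f =
      (∑ j, circulant (f j) * (circulant (f j))ᴴ) ⊗ₖ
        ((2 * (Fintype.card ι : ℂ)) • (1 : Matrix ι ι ℂ)) := by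
  have e1 : Xm F f * (Xm F f)ᴴ =
      ∑ i, ∑ j, (circulant (f i) * (circulant (f j))ᴴ) ⊗ₖ (F.φ i * (F.φ j)ᴴ) := by
    rw [Xm_conj]
    simp only [Xm, Finset.sum_mul, Finset.mul_sum, mul_kronecker_mul]
    exact Finset.sum_comm
  have e2 : (Xm F f)ᴴ * Xm F f =
      ∑ i, ∑ j, (circulant (f i) * (circulant (f j))ᴴ) ⊗ₖ ((F.φ j)ᴴ * F.φ i) := by
    have e0 : ∀ i j, (circulant (f i) * (circulant (f j))ᴴ) ⊗ₖ ((F.φ j)ᴴ * F.φ i) =
        ((circulant (f j))ᴴ ⊗ₖ (F.φ j)ᴴ) * (circulant (f i) ⊗ₖ F.φ i) := by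
      intro i j
      rw [← circ_comm_conj, mul_kronecker_mul]
    simp only [e0]
    rw [Xm_conj, Xm, Finset.mul_sum]
    refine Finset.sum_congr rfl fun i _ => ?_
    rw [Finset.sum_mul]
  rw [e1, e2, ← Finset.sum_add_distrib]
  have e3 : ∀ i, ((∑ j, (circulant (f i) * (circulant (f j))ᴴ) ⊗ₖ (F.φ i * (F.φ j)ᴴ)) +
      ∑ j, (circulant (f i) * (circulant (f j))ᴴ) ⊗ₖ ((F.φ j)ᴴ * F.φ i)) =
      (circulant (f i) * (circulant (f i))ᴴ) ⊗ₖ
        ((2 * (Fintype.card ι : ℂ)) • (1 : Matrix ι ι ℂ)) := by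
    intro i
    rw [← Finset.sum_add_distrib, Finset.sum_eq_single i]
    · rw [← kronecker_add, F.φφH, if_pos rfl]
    · intro j _ hj
      rw [← kronecker_add, F.φφH, if_neg (Ne.symm hj), kronecker_zero]
    · intro h; exact absurd (Finset.mem_univ i) h
  rw [Finset.sum_congr rfl fun i _ => e3 i]
  ext p q
  simp only [Matrix.sum_apply, kroneckerMap_apply, Finset.sum_mul]

lemma T_sq (t : H) (ht : t + t = 0) :
    circulant (Pi.single t (1 : ℂ)) * circulant (Pi.single t (1 : ℂ)) = (1 : Matrix H H ℂ) := by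
  ext g h
  rw [mul_apply, one_apply]
  simp only [circulant_apply, Pi.single_apply, mul_ite, mul_one, mul_zero]
  by_cases hgh : g = h
  · subst hgh
    rw [if_pos rfl, Finset.sum_eq_single (g - t)]
    · rw [if_pos (by abel_nf; simpa using (neg_eq_of_add_eq_zero_left ht)), if_pos (by abel)]
    · intro k _ hk
      by_cases h2 : g - k = t
      · exact absurd (by rw [← h2]; abel) hk
      · split_ifs <;> simp
    · intro h; exact absurd (Finset.mem_univ _) h
  · rw [if_neg hgh]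
    refine Finset.sum_eq_zero fun k _ => ?_
    by_cases h1 : k - h = t
    · rw [if_pos h1]
      rw [if_neg]
      intro h2
      exact hgh (sub_eq_zero.mp (by rw [← ht, ← h2]; nth_rewrite 2 [h2]; rw [← h1]; abel))
    · rw [if_neg h1]


lemma T_herm (t : H) (ht : t + t = 0) :
    (circulant (Pi.single t (1 : ℂ)) : Matrix H H ℂ)ᴴ = circulant (Pi.single t (1 : ℂ)) := by
  ext g h
  rw [conjTranspose_apply, circulant_apply, circulant_apply, Pi.single_apply, Pi.single_apply]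
  have e : (h - g = t) ↔ (g - h = t) := by
    have hn : -t = t := neg_eq_of_add_eq_zero_left ht
    constructor
    · intro h1; rw [← hn, ← h1, neg_sub]
    · intro h1; rw [← hn, ← h1, neg_sub]
  by_cases h1 : g - h = t
  · rw [if_pos h1, if_pos (e.mpr h1), star_one]
  · rw [if_neg h1, if_neg (fun h2 => h1 (e.mp h2)), star_zero]

lemma Ym_herm (F : FlatCAR K ι) (t : H) (ht : t + t = 0) : (Ym F t)ᴴ = Ym F t := by
  rw [Ym, conjTranspose_add, conjTranspose_kronecker, conjTranspose_kronecker, conjTranspose_one,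
    F.G_herm, F.A_herm, T_herm t ht]

lemma Ym_sq (F : FlatCAR K ι) (t : H) (ht : t + t = 0) :
    Ym F t * Ym F t = (2 * (Fintype.card ι : ℂ) - 1) • (1 : Matrix (H × ι) (H × ι) ℂ) := by
  have h2 : (circulant (Pi.single t (1 : ℂ)) : Matrix H H ℂ) ⊗ₖ (F.G * F.A) +
      (circulant (Pi.single t (1 : ℂ)) : Matrix H H ℂ) ⊗ₖ (F.A * F.G) = 0 := by
    rw [← kronecker_add, F.GA, kronecker_zero]
  calc Ym F t * Ym F t
      = (1 : Matrix H H ℂ) ⊗ₖ (F.G * F.G) +
        (circulant (Pi.single t (1 : ℂ)) * circulant (Pi.single t (1 : ℂ)) : Matrix H H ℂ) ⊗ₖ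
          (F.A * F.A) +
        ((circulant (Pi.single t (1 : ℂ)) : Matrix H H ℂ) ⊗ₖ (F.G * F.A) +
          (circulant (Pi.single t (1 : ℂ)) : Matrix H H ℂ) ⊗ₖ (F.A * F.G)) := by
        rw [Ym, add_mul, mul_add, mul_add, ← mul_kronecker_mul, ← mul_kronecker_mul,
          ← mul_kronecker_mul, ← mul_kronecker_mul, one_mul, one_mul, mul_one]
        abel
    _ = _ := by
        rw [h2, T_sq t ht, F.GG, F.AA, add_zero, kronecker_smul, kronecker_smul, one_kronecker_one,
          ← add_smul]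
        congr 1
        ring

lemma Xm_Ym (F : FlatCAR K ι) (f : Fin K → H → ℂ) (t : H) :
    Xm F f * Ym F t + Ym F t * Xm F f = 0 := by
  have e1 : Xm F f * Ym F t = (∑ j, circulant (f j) ⊗ₖ (F.φ j * F.G)) +
      ∑ j, (circulant (f j) * circulant (Pi.single t (1 : ℂ))) ⊗ₖ (F.φ j * F.A) := by
    rw [Xm, Ym, Finset.sum_mul, ← Finset.sum_add_distrib]
    refine Finset.sum_congr rfl fun j _ => ?_
    rw [mul_add, ← mul_kronecker_mul, ← mul_kronecker_mul, mul_one]
  have e2 : Ym F t * Xm F f = (∑ j, circulant (f j) ⊗ₖ (F.G * F.φ j)) +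
      ∑ j, (circulant (f j) * circulant (Pi.single t (1 : ℂ))) ⊗ₖ (F.A * F.φ j) := by
    rw [Xm, Ym, Finset.mul_sum, ← Finset.sum_add_distrib]
    refine Finset.sum_congr rfl fun j _ => ?_
    rw [add_mul, ← mul_kronecker_mul, ← mul_kronecker_mul, one_mul,
      circulant_mul_comm (Pi.single t (1 : ℂ)) (f j)]
  rw [e1, e2, add_add_add_comm, ← Finset.sum_add_distrib, ← Finset.sum_add_distrib]
  have h1 : ∀ j ∈ Finset.univ, (circulant (f j) ⊗ₖ (F.φ j * F.G) +
      circulant (f j) ⊗ₖ (F.G * F.φ j) : Matrix (H × ι) (H × ι) ℂ) = 0 := by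
    intro j _
    rw [← kronecker_add, F.φG, kronecker_zero]
  have h2 : ∀ j ∈ Finset.univ, ((circulant (f j) * circulant (Pi.single t (1 : ℂ))) ⊗ₖ (F.φ j * F.A) +
      (circulant (f j) * circulant (Pi.single t (1 : ℂ))) ⊗ₖ (F.A * F.φ j) :
      Matrix (H × ι) (H × ι) ℂ) = 0 := by
    intro j _
    rw [← kronecker_add, F.φA, kronecker_zero]
  rw [Finset.sum_eq_zero h1, Finset.sum_eq_zero h2, add_zero]

lemma circ_sum (f : Fin K → H → ℂ) (N : ℂ) (h0 : ∑ j, acf (f j) 0 = N)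
    (hx : ∀ x, x ≠ 0 → ∑ j, acf (f j) x = 0) :
    ∑ j, circulant (f j) * (circulant (f j))ᴴ = N • (1 : Matrix H H ℂ) := by
  ext g h
  have e : ∀ j, (circulant (f j) * (circulant (f j))ᴴ : Matrix H H ℂ) g h = acf (f j) (g - h) := by
    intro j
    have h1 := Equiv.sum_comp (Equiv.subLeft g) (fun y => f j y * star (f j (y - (g - h))))
    rw [mul_apply, acf, ← h1]
    refine Finset.sum_congr rfl fun k _ => ?_
    rw [conjTranspose_apply, circulant_apply, circulant_apply]
    simp only [Equiv.subLeft_apply]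
    rw [show g - k - (g - h) = h - k by abel]
  rw [Matrix.sum_apply, Finset.sum_congr rfl fun j _ => e j, Matrix.smul_apply, one_apply, smul_eq_mul]
  by_cases hgh : g = h
  · subst hgh
    rw [sub_self, h0, if_pos rfl, mul_one]
  · rw [hx _ (sub_ne_zero.mpr hgh), if_neg hgh, mul_zero]

lemma acf_zero_sum (f : Fin K → H → ℂ) (t : H) (ht0 : t ≠ 0) (ht : t + t = 0)
    (hf0 : ∀ j, f j 0 = 0 ∧ f j t = 0)
    (hf : ∀ h, h ≠ 0 → h ≠ t → ∃ j, ((‖f j h‖ = 1 ∧ f j (-h) = 0) ∨ (f j h = 0 ∧ ‖f j (-h)‖ = 1)) ∧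
      ∀ i, i ≠ j → f i h = 0 ∧ f i (-h) = 0) :
    ∑ j, acf (f j) 0 = ((Fintype.card H : ℂ) - 2) / 2 := by
  have hn : -t = t := neg_eq_of_add_eq_zero_left ht
  have e1 : ∀ j, acf (f j) 0 = ∑ y, ((‖f j y‖ ^ 2 : ℝ) : ℂ) := by
    intro j
    rw [acf]
    refine Finset.sum_congr rfl fun y _ => ?_
    rw [sub_zero, Complex.star_def, Complex.mul_conj, Complex.normSq_eq_norm_sq]
  have e2 : ∀ y : H, ∑ j, (‖f j y‖ ^ 2 + ‖f j (-y)‖ ^ 2) = if y = 0 ∨ y = t then 0 else 1 := by
    intro y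
    split_ifs with h
    · refine Finset.sum_eq_zero fun j _ => ?_
      rcases h with rfl | rfl
      · rw [neg_zero, (hf0 j).1]; simp
      · rw [hn, (hf0 j).2]; simp
    · push Not at h
      obtain ⟨j, hj, hi⟩ := hf y h.1 h.2
      rw [Finset.sum_eq_single j]
      · rcases hj with ⟨h1, h2⟩ | ⟨h1, h2⟩
        · rw [h1, h2]; simp
        · rw [h1, h2]; simp
      · intro i _ hij
        rw [(hi i hij).1, (hi i hij).2]; simp
      · intro h; exact absurd (Finset.mem_univ j) h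
  have e3 : (∑ y : H, if y = 0 ∨ y = t then (0 : ℝ) else 1) = (Fintype.card H : ℝ) - 2 := by
    have h1 : ∀ y : H, (if y = 0 ∨ y = t then (0 : ℝ) else 1) =
        1 - ((if y = 0 then 1 else 0) + (if y = t then 1 else 0)) := by
      intro y
      by_cases h1 : y = 0
      · subst h1
        simp [Ne.symm ht0]
      · by_cases h2 : y = t
        · subst h2; simp [h1]
        · simp [h1, h2]
    rw [Finset.sum_congr rfl fun y _ => h1 y, Finset.sum_sub_distrib, Finset.sum_add_distrib,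
      Finset.sum_ite_eq', Finset.sum_ite_eq']
    simp
    norm_num
  have e4 : ∑ j, ∑ y, ‖f j y‖ ^ 2 = ((Fintype.card H : ℝ) - 2) / 2 := by
    have h1 : ∑ j, ∑ y, ‖f j y‖ ^ 2 = ∑ y, ∑ j, ‖f j y‖ ^ 2 := Finset.sum_comm
    have h2 : ∑ y, ∑ j, ‖f j y‖ ^ 2 = ∑ y, ∑ j, ‖f j (-y)‖ ^ 2 :=
      (Equiv.sum_comp (Equiv.neg H) (fun y => ∑ j, ‖f j y‖ ^ 2)).symm
    have h3 : ∑ y : H, ∑ j, (‖f j y‖ ^ 2 + ‖f j (-y)‖ ^ 2) = (Fintype.card H : ℝ) - 2 := by
      rw [Finset.sum_congr rfl fun y _ => e2 y, e3]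
    simp only [Finset.sum_add_distrib] at h3
    rw [← h2] at h3
    rw [h1]; linarith
  rw [Finset.sum_congr rfl fun j _ => e1 j]
  have e5 : ∑ j, ∑ y, ((‖f j y‖ ^ 2 : ℝ) : ℂ) = ((∑ j, ∑ y, ‖f j y‖ ^ 2 : ℝ) : ℂ) := by
    push_cast; rfl
  rw [e5, e4]
  push_cast; ring

/-- A3 BLK -/
theorem BLK : S_BLK := by
  intro K ι _ _ F H _ _ _ t ht0 ht f hf0 hf hx
  have hn : -t = t := neg_eq_of_add_eq_zero_left ht
  refine ⟨H × ι, inferInstance, inferInstance, Xm F f + (Xm F f)ᴴ + Ym F t, ?_, ?_⟩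
  swap
  · rw [Fintype.card_prod]; ring
  have happ : ∀ (g h : H) (a b : ι), (Xm F f + (Xm F f)ᴴ + Ym F t) (g, a) (h, b) =
      (∑ j, f j (g - h) * F.φ j a b) + (∑ j, star (f j (h - g)) * star (F.φ j b a)) +
        ((if g = h then F.G a b else 0) + if g - h = t then F.A a b else 0) := by
    intro g h a b
    rw [Matrix.add_apply, Matrix.add_apply, Xm_conj, Xm, Ym, Matrix.add_apply, Matrix.sum_apply,
      Matrix.sum_apply]
    simp only [kroneckerMap_apply, circulant_apply, conjTranspose_apply, one_apply,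
      Pi.single_apply, ite_mul, one_mul, zero_mul]
  refine ⟨?_, ?_, ?_, ?_⟩
  · rw [IsHermitian, conjTranspose_add, conjTranspose_add, conjTranspose_conjTranspose,
      Ym_herm F t ht, add_comm (Xm F f)ᴴ]
  · rintro ⟨g, a⟩
    rw [happ, sub_self, if_pos rfl, if_neg (Ne.symm ht0), F.G_diag]
    simp [(hf0 _).1]
  · rintro ⟨g, a⟩ ⟨h, b⟩ hne
    rw [happ]
    by_cases h1 : g = h
    · subst h1
      have hab : a ≠ b := fun h => hne (by rw [h])
      rw [sub_self, if_pos rfl, if_neg (Ne.symm ht0)]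
      simp only [(hf0 _).1, zero_mul, star_zero, Finset.sum_const_zero, zero_add, add_zero]
      exact F.G_norm a b hab
    · by_cases h2 : g - h = t
      · have h3 : h - g = t := by rw [← hn, ← h2, neg_sub]
        rw [if_neg h1, h2, h3, if_pos rfl]
        simp only [(hf0 _).2, zero_mul, star_zero, Finset.sum_const_zero, zero_add]
        exact F.A_norm a b
      · rw [if_neg h1, if_neg h2, add_zero, add_zero]
        obtain ⟨j, hj, hi⟩ := hf (g - h) (sub_ne_zero.mpr h1) h2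
        have h4 : h - g = -(g - h) := by rw [neg_sub]
        rw [h4, Finset.sum_eq_single j, Finset.sum_eq_single j]
        · rcases hj with ⟨h5, h6⟩ | ⟨h5, h6⟩
          · rw [h6, star_zero, zero_mul, add_zero, norm_mul, h5, F.φ_norm, one_mul]
          · rw [h5, zero_mul, zero_add, norm_mul, norm_star, norm_star, h6, F.φ_norm, one_mul]
        · intro i _ hij
          rw [(hi i hij).2, star_zero, zero_mul]
        · intro h; exact absurd (Finset.mem_univ j) h
        · intro i _ hij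
          rw [(hi i hij).1, zero_mul]
        · intro h; exact absurd (Finset.mem_univ j) h
  · have hXY := Xm_Ym F f t
    have hXY' : (Xm F f)ᴴ * Ym F t + Ym F t * (Xm F f)ᴴ = 0 := by
      have h1 := congrArg conjTranspose hXY
      rw [conjTranspose_add, conjTranspose_mul, conjTranspose_mul, Ym_herm F t ht,
        conjTranspose_zero, add_comm] at h1
      exact h1
    have hX2 := Xm_sq F f
    have hX2' : (Xm F f)ᴴ * (Xm F f)ᴴ = 0 := by
      rw [← conjTranspose_mul, hX2, conjTranspose_zero]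
    have hA := Xm_anti F f
    rw [circ_sum f _ (acf_zero_sum f t ht0 ht hf0 hf) hx] at hA
    calc (Xm F f + (Xm F f)ᴴ + Ym F t) * (Xm F f + (Xm F f)ᴴ + Ym F t)
        = Xm F f * Xm F f + (Xm F f)ᴴ * (Xm F f)ᴴ + (Xm F f * (Xm F f)ᴴ + (Xm F f)ᴴ * Xm F f) +
          (Xm F f * Ym F t + Ym F t * Xm F f) + ((Xm F f)ᴴ * Ym F t + Ym F t * (Xm F f)ᴴ) +
          Ym F t * Ym F t := by noncomm_ring
      _ = _ := by
          rw [hX2, hX2', hXY, hXY', hA, Ym_sq F t ht, smul_kronecker, kronecker_smul,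
            one_kronecker_one, smul_smul, Fintype.card_prod]
          simp only [zero_add, add_zero]
          rw [← add_smul]
          congr 1
          push_cast
          ring

end Pool.Agent.H34.U
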