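import Pool.Agent.H20.U.UB
import Pool.Agent.H15.U.Defs2

/-!
# Project U2 (MP_0c7934_co): module LEV
-/

namespace Pool.Agent.H34.U

open Pool.Agent.H26.U Pool.Agent.H15.U Pool.Agent.H20.U

theorem LEV : S_LEV := by
  intro n _ μ t hn hμ hnt x hx hx2
  have hn0 : 0 < n := Nat.pos_of_ne_zero (NeZero.ne n)
  have hnR : (0 : ℝ) < n := by exact_mod_cast hn0
  have hμR : (0 : ℝ) < μ := by exact_mod_cast (by omega : 0 < μ)
  have h2u : IsUnit (2 : ZMod n) := by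
    have h := (ZMod.isUnit_iff_coprime 2 n).mpr (Nat.coprime_two_left.mpr hn)
    simpa using h
  obtain ⟨c, hc⟩ : ∃ c : ℤ, c = (2 * x).valMinAbs := ⟨_, rfl⟩
  have hcc : (c : ZMod n) = 2 * x := by rw [hc, ZMod.coe_valMinAbs]
  have h2x : 2 * x ≠ 0 := by
    rw [Ne, h2u.mul_right_eq_zero]
    exact hx
  have hc0 : c ≠ 0 := by
    intro h
    rw [h] at hcc
    apply h2x
    rw [← hcc, Int.cast_zero]
  obtain ⟨a, ha⟩ : ∃ a : ℕ, a = c.natAbs := ⟨_, rfl⟩
  have ha0 : 0 < a := by rw [ha]; exact Int.natAbs_pos.mpr hc0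
  have hale : a ≤ n / 2 := by rw [ha, hc]; exact ZMod.natAbs_valMinAbs_le _
  have hna : n ≤ a ^ 2 := by
    have h1 : (n : ℤ) ∣ c ^ 2 := by
      rw [← ZMod.intCast_zmod_eq_zero_iff_dvd]
      push_cast
      rw [hcc]
      have : (2 * x) ^ 2 = 4 * x ^ 2 := by ring
      rw [this, hx2, mul_zero]
    have h2 : n ∣ a ^ 2 := by
      have h3 := Int.natAbs_dvd_natAbs.mpr h1
      rw [Int.natAbs_natCast, Int.natAbs_pow, ← ha] at h3
      exact h3
    exact Nat.le_of_dvd (by positivity) h2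
  have ht : 1 ≤ t := by
    rcases Nat.eq_zero_or_pos t with h | h
    · exfalso
      rw [h] at hnt
      simp only [mul_zero, pow_zero] at hnt
      have h1 : n = 1 := by omega
      subst h1
      exact hx (Subsingleton.elim _ _)
    · exact h
  have hPt : n < 2 * μ ^ (t - 1 + 1) * a := by
    rw [Nat.sub_add_cancel ht]
    have h1 : n ^ 2 ≤ (μ ^ t * a) ^ 2 := by
      calc n ^ 2 = n * n := pow_two n
        _ ≤ μ ^ (2 * t) * a ^ 2 := Nat.mul_le_mul hnt hna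
        _ = (μ ^ t * a) ^ 2 := by rw [mul_pow, ← pow_mul, mul_comm 2 t]
    have h2 : n ≤ μ ^ t * a := (Nat.pow_le_pow_iff_left two_ne_zero).mp h1
    have h3 : 2 * μ ^ t * a = 2 * (μ ^ t * a) := by ring
    rw [h3]
    omega
  have hex : ∃ l, n < 2 * μ ^ (l + 1) * a := ⟨t - 1, hPt⟩
  classical
  obtain ⟨l, hl⟩ : ∃ l, l = Nat.find hex := ⟨_, rfl⟩
  have hl1 : n < 2 * μ ^ (l + 1) * a := by rw [hl]; exact Nat.find_spec hex
  have hlt : l < t := by
    have h1 : l ≤ t - 1 := by rw [hl]; exact Nat.find_min' hex hPt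
    omega
  have hl2 : 2 * μ ^ l * a ≤ n := by
    rcases Nat.eq_zero_or_pos l with h | h
    · rw [h, pow_zero, mul_one]
      omega
    · have h1 := Nat.find_min hex (m := l - 1) (by rw [← hl]; omega)
      rw [Nat.sub_add_cancel h] at h1
      omega
  -- the value at level `l`
  obtain ⟨z, hz⟩ : ∃ z : ZMod n, z = 2 * (((μ ^ l : ℕ) : ZMod n) * x) := ⟨_, rfl⟩
  have hzc : z.valMinAbs = (μ ^ l : ℕ) * c := by
    rw [ZMod.valMinAbs_spec]
    constructor
    · rw [hz]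
      push_cast
      rw [hcc]
      ring
    · have h1 : |(((μ ^ l : ℕ) : ℤ) * c) * 2| ≤ n := by
        rw [abs_mul, abs_mul]
        have h2 : |c| = (a : ℤ) := by rw [ha]; exact (Int.natCast_natAbs c).symm
        rw [h2, abs_of_nonneg (by positivity), abs_of_nonneg (by norm_num : (0 : ℤ) ≤ 2)]
        have h3 : ((2 * μ ^ l * a : ℕ) : ℤ) ≤ n := by exact_mod_cast hl2
        push_cast at h3 ⊢
        linarith
      have h4 : (((μ ^ l : ℕ) : ℤ) * c) * 2 ≠ -(n : ℤ) := by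
        intro h
        obtain ⟨k, hk⟩ := hn
        have h5 : (n : ℤ) = 2 * (k : ℤ) + 1 := by exact_mod_cast hk
        omega
      have h5 := abs_le.mp h1
      exact ⟨lt_of_le_of_ne h5.1 (Ne.symm h4), h5.2⟩
  have hmin : min z.val (n - z.val) = μ ^ l * a := by
    rw [← ZMod.valMinAbs_natAbs_eq_min, hzc, Int.natAbs_mul, Int.natAbs_natCast, ← ha]
  have h1 := norm_one_sub_ez_ge z
  have hval : z.val < n := ZMod.val_lt z
  have hminR : min (z.val : ℝ) ((n : ℝ) - z.val) = (μ : ℝ) ^ l * a := by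
    have h2 : ((min z.val (n - z.val) : ℕ) : ℝ) = ((μ ^ l * a : ℕ) : ℝ) := by rw [hmin]
    rw [Nat.cast_min, Nat.cast_sub hval.le] at h2
    rw [h2]
    push_cast
    ring
  rw [hminR] at h1
  have h3 : |sz (((μ ^ l : ℕ) : ZMod n) * x)| = ‖1 - ez z‖ / 2 := by
    rw [hz]
    exact abs_sz_two n _
  have h4 : 1 / (μ : ℝ) ≤ |sz (((μ ^ l : ℕ) : ZMod n) * x)| := by
    rw [h3]
    have h5 : (n : ℝ) < 2 * (μ : ℝ) ^ (l + 1) * a := by exact_mod_cast hl1
    have h6 : 1 / (μ : ℝ) ≤ 2 * ((μ : ℝ) ^ l * a) / n := by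
      rw [div_le_div_iff₀ hμR hnR]
      rw [pow_succ] at h5
      nlinarith
    have h7 : 4 * ((μ : ℝ) ^ l * a) / n = 2 * (2 * ((μ : ℝ) ^ l * a) / n) := by ring
    rw [h7] at h1
    linarith
  calc 1 / (μ : ℝ) ^ 2 = (1 / (μ : ℝ)) ^ 2 := by rw [div_pow, one_pow]
    _ ≤ |sz (((μ ^ l : ℕ) : ZMod n) * x)| ^ 2 := pow_le_pow_left₀ (by positivity) h4 2
    _ = sz (((μ ^ l : ℕ) : ZMod n) * x) ^ 2 := sq_abs _
    _ ≤ ∑ l ∈ Finset.range t, sz (((μ ^ l : ℕ) : ZMod n) * x) ^ 2 :=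
        Finset.single_le_sum (f := fun l => sz (((μ ^ l : ℕ) : ZMod n) * x) ^ 2)
          (fun i _ => sq_nonneg _) (Finset.mem_range.mpr hlt)

end Pool.Agent.H34.U
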