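import Pool.Agent.H26.U.Ez
import Pool.Agent.H15.U.Defs2

/-!
# Project U2 (MP_0c7934_co): modules PV, INV, CK0
-/

namespace Pool.Agent.H34.U

open Pool.Agent.H26.U Pool.Agent.H15.U

variable {n : ℕ} [NeZero n]

lemma two_mul_unit (hn : Odd n) {c : ZMod n} (hc : IsUnit c) : IsUnit (2 * c) := by
  have h2 : IsUnit (2 : ZMod n) := by
    have h := (ZMod.isUnit_iff_coprime 2 n).mpr (Nat.coprime_two_left.mpr hn)
    simpa using h
  exact h2.mul hc

/-- orthogonality -/
lemma orth (hn : Odd n) {c : ZMod n} (hc : IsUnit c) (x x' : ZMod n) :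
    ∑ y, ez (-(2 * c * x' * y)) * ez (2 * c * x * y) = if x' = x then (n : ℂ) else 0 := by
  have h1 : ∀ y : ZMod n, ez (-(2 * c * x' * y)) * ez (2 * c * x * y) =
      ez ((2 * c * (x - x')) * y) := by
    intro y
    rw [← ez_add]
    congr 1
    ring
  rw [Finset.sum_congr rfl fun y _ => h1 y, sum_ez_mul]
  have h2 : 2 * c * (x - x') = 0 ↔ x' = x := by
    rw [(two_mul_unit hn hc).mul_right_eq_zero, sub_eq_zero]
    exact eq_comm
  simp only [h2]

theorem PV : S_PV := by
  intro n _ hn c hc g
  have h1 : ∀ y : ZMod n, ((∑ x, g x * ez (-(2 * c * x * y))).re) ^ 2 ≤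
      ‖∑ x, g x * ez (-(2 * c * x * y))‖ ^ 2 := by
    intro y
    rw [← sq_abs]
    exact pow_le_pow_left₀ (abs_nonneg _) (Complex.abs_re_le_norm _) 2
  refine (Finset.sum_le_sum fun y _ => h1 y).trans (le_of_eq ?_)
  have h2 : ((∑ y, ‖∑ x, g x * ez (-(2 * c * x * y))‖ ^ 2 : ℝ) : ℂ) =
      ((n * ∑ x, ‖g x‖ ^ 2 : ℝ) : ℂ) := by
    push_cast
    have e1 : ∀ z : ℂ, ((‖z‖ : ℂ)) ^ 2 = z * star z := by
      intro z
      rw [Complex.star_def, Complex.mul_conj, Complex.normSq_eq_norm_sq]
      push_cast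
      rfl
    calc ∑ y, ((‖∑ x, g x * ez (-(2 * c * x * y))‖ : ℂ)) ^ 2
        = ∑ y, (∑ x, g x * ez (-(2 * c * x * y))) * star (∑ x, g x * ez (-(2 * c * x * y))) :=
          Finset.sum_congr rfl fun y _ => e1 _
      _ = ∑ y, ∑ x, ∑ x', g x * star (g x') * (ez (-(2 * c * x * y)) * ez (2 * c * x' * y)) := by
          refine Finset.sum_congr rfl fun y _ => ?_
          rw [star_sum, Finset.sum_mul_sum]
          refine Finset.sum_congr rfl fun x _ => Finset.sum_congr rfl fun x' _ => ?_
          have e2 : star (g x' * ez (-(2 * c * x' * y))) = star (g x') * ez (2 * c * x' * y) := by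
            rw [star_mul', ← ez_neg, neg_neg]
          rw [e2]
          ring
      _ = ∑ x, ∑ x', g x * star (g x') * ∑ y, ez (-(2 * c * x * y)) * ez (2 * c * x' * y) := by
          rw [Finset.sum_comm]
          refine Finset.sum_congr rfl fun x _ => ?_
          rw [Finset.sum_comm]
          refine Finset.sum_congr rfl fun x' _ => ?_
          rw [Finset.mul_sum]
      _ = ∑ x, ∑ x', g x * star (g x') * (if x = x' then (n : ℂ) else 0) := by
          refine Finset.sum_congr rfl fun x _ => Finset.sum_congr rfl fun x' _ => ?_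
          rw [orth hn hc]
      _ = ∑ x, (n : ℂ) * (‖g x‖ : ℂ) ^ 2 := by
          refine Finset.sum_congr rfl fun x _ => ?_
          rw [Finset.sum_eq_single x]
          · rw [if_pos rfl, e1]
            ring
          · intro b _ hb
            rw [if_neg (Ne.symm hb), mul_zero]
          · intro h
            exact absurd (Finset.mem_univ x) h
      _ = (n : ℂ) * ∑ x, (‖g x‖ : ℂ) ^ 2 := by rw [Finset.mul_sum]
  exact_mod_cast h2

theorem INV : S_INV := by
  intro n _ hn c hc g hg x
  have hreal : ∀ y : ZMod n, (((∑ x', g x' * ez (-(2 * c * x' * y))).re : ℝ) : ℂ) =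
      ∑ x', g x' * ez (-(2 * c * x' * y)) := by
    intro y
    rw [← Complex.conj_eq_iff_re, ← Complex.star_def, star_sum,
      ← Equiv.sum_comp (Equiv.neg (ZMod n))]
    refine Finset.sum_congr rfl fun x' _ => ?_
    simp only [Equiv.neg_apply]
    rw [star_mul', hg x', star_star, ← ez_neg]
    congr 2
    ring
  calc ∑ y, (((∑ x', g x' * ez (-(2 * c * x' * y))).re : ℝ) : ℂ) * ez (2 * c * x * y)
      = ∑ y, ∑ x', g x' * (ez (-(2 * c * x' * y)) * ez (2 * c * x * y)) := by
        refine Finset.sum_congr rfl fun y _ => ?_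
        rw [hreal, Finset.sum_mul]
        refine Finset.sum_congr rfl fun x' _ => ?_
        ring
    _ = ∑ x', g x' * ∑ y, ez (-(2 * c * x' * y)) * ez (2 * c * x * y) := by
        rw [Finset.sum_comm]
        refine Finset.sum_congr rfl fun x' _ => ?_
        rw [Finset.mul_sum]
    _ = ∑ x', g x' * (if x' = x then (n : ℂ) else 0) := by
        refine Finset.sum_congr rfl fun x' _ => ?_
        rw [orth hn hc]
    _ = n * g x := by
        rw [Finset.sum_eq_single x]
        · rw [if_pos rfl, mul_comm]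
        · intro b _ hb
          rw [if_neg hb, mul_zero]
        · intro h
          exact absurd (Finset.mem_univ x) h

theorem CK0 : S_CK0 := by
  intro n _
  have hn0 : 0 < n := Nat.pos_of_ne_zero (NeZero.ne n)
  have hex : ∃ s : ℕ, 0 < s ∧ n ∣ s ^ 2 := ⟨n, hn0, dvd_pow_self n two_ne_zero⟩
  classical
  obtain ⟨s, hs⟩ : ∃ s, s = Nat.find hex := ⟨_, rfl⟩
  have hs0 : 0 < s := by rw [hs]; exact (Nat.find_spec hex).1
  have hs2 : n ∣ s ^ 2 := by rw [hs]; exact (Nat.find_spec hex).2
  have hdiv : ∀ v : ℕ, n ∣ v ^ 2 → s ∣ v := by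
    intro v hv
    have h1 : n ∣ (Nat.gcd v s) ^ 2 := by
      rw [← Nat.pow_gcd_pow]
      exact Nat.dvd_gcd hv hs2
    have h2 : 0 < Nat.gcd v s := Nat.gcd_pos_of_pos_right _ hs0
    have h3 : s ≤ Nat.gcd v s := by
      rw [hs]
      exact Nat.find_min' hex ⟨by rw [← hs]; exact h2, by rw [← hs]; exact h1⟩
    have h4 : Nat.gcd v s = s := le_antisymm (Nat.le_of_dvd hs0 (Nat.gcd_dvd_right _ _)) h3
    rw [← h4]
    exact Nat.gcd_dvd_left _ _
  obtain ⟨k, hk⟩ := hdiv n (dvd_pow_self n two_ne_zero)
  have hks : k ≤ s := by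
    have h1 : s * k ≤ s * s := by
      rw [← hk, ← pow_two]
      exact Nat.le_of_dvd (by positivity) hs2
    exact Nat.le_of_mul_le_mul_left h1 hs0
  have hcard : (Finset.univ.filter (fun x : ZMod n => x ^ 2 = 0)).card ≤ k := by
    have hmem : ∀ x ∈ Finset.univ.filter (fun x : ZMod n => x ^ 2 = 0), s ∣ x.val := by
      intro x hx
      have h1 := (Finset.mem_filter.mp hx).2
      apply hdiv
      rw [← ZMod.natCast_eq_zero_iff]
      push_cast
      rw [ZMod.natCast_zmod_val]
      exact h1
    calc (Finset.univ.filter (fun x : ZMod n => x ^ 2 = 0)).card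
        ≤ (Finset.range k).card := by
          apply Finset.card_le_card_of_injOn (fun x => x.val / s)
          · intro x hx
            simp only [Finset.coe_range, Set.mem_Iio]
            rw [Nat.div_lt_iff_lt_mul hs0, mul_comm, ← hk]
            exact ZMod.val_lt x
          · intro x hx y hy hxy
            have h1 := hmem x hx
            have h2 := hmem y hy
            have h3 : x.val / s = y.val / s := hxy
            have h4 : x.val = y.val := by
              rw [← Nat.div_mul_cancel h1, ← Nat.div_mul_cancel h2, h3]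
            exact ZMod.val_injective n h4
      _ = k := Finset.card_range k
  calc (Finset.univ.filter (fun x : ZMod n => x ^ 2 = 0)).card ^ 2 ≤ k ^ 2 :=
        Nat.pow_le_pow_left hcard 2
    _ = k * k := pow_two k
    _ ≤ s * k := Nat.mul_le_mul_right k hks
    _ = n := hk.symm

end Pool.Agent.H34.U
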