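import Pool.Agent.H14.U.FixA
import Pool.Agent.H15.U.Defs2

/-!
# Project U2 (MP_0c7934_co): module QL
-/

namespace Pool.Agent.H34.U

open Pool.Agent.H26.U Pool.Agent.H15.U Pool.Agent.H14.U

variable {n : ℕ} [NeZero n]

lemma nr_nonneg (ρ : ZMod n → ℝ) : 0 ≤ nr ρ := Real.sqrt_nonneg _

lemma nr_sq (ρ : ZMod n → ℝ) : nr ρ ^ 2 = ∑ y, ρ y ^ 2 := by
  rw [nr, Real.sq_sqrt (Finset.sum_nonneg fun y _ => sq_nonneg _)]

/-- Cauchy-Schwarz -/
lemma cs_nr (f g : ZMod n → ℝ) : ∑ y, f y * g y ≤ nr f * nr g := by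
  have h := Finset.sum_mul_sq_le_sq_mul_sq Finset.univ f g
  rw [← nr_sq, ← nr_sq, ← mul_pow] at h
  exact le_of_sq_le_sq h (mul_nonneg (nr_nonneg f) (nr_nonneg g)) |>.trans le_rfl

/-- the triangle inequality -/
lemma nr_add (f g : ZMod n → ℝ) : nr (fun y => f y + g y) ≤ nr f + nr g := by
  apply le_of_sq_le_sq _ (add_nonneg (nr_nonneg f) (nr_nonneg g))
  have h := cs_nr f g
  have e : ∑ y, (f y + g y) ^ 2 = ∑ y, f y ^ 2 + 2 * ∑ y, f y * g y + ∑ y, g y ^ 2 := by
    rw [Finset.mul_sum, ← Finset.sum_add_distrib, ← Finset.sum_add_distrib]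
    refine Finset.sum_congr rfl fun y _ => ?_
    ring
  rw [nr_sq, e]
  have e2 : (nr f + nr g) ^ 2 = nr f ^ 2 + 2 * (nr f * nr g) + nr g ^ 2 := by ring
  rw [e2, nr_sq, nr_sq]
  linarith

lemma nr_shift (f : ZMod n → ℝ) (x : ZMod n) : nr (fun y => f (y - x)) = nr f := by
  unfold nr
  congr 1
  exact Equiv.sum_comp (Equiv.subRight x) (fun y => f y ^ 2)

lemma nr_abs (f : ZMod n → ℝ) : nr (fun y => |f y|) = nr f := by
  unfold nr
  congr 1
  exact Finset.sum_congr rfl fun y _ => sq_abs _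

theorem QL : S_QL := by
  intro n _ a ha ψ ψ' x
  have e : qpart a ψ x - qpart a ψ' x =
      ∑ y, a y * (rem (ψ y - ψ (y - x)) - rem (ψ' y - ψ' (y - x))) := by
    unfold qpart
    rw [← Finset.sum_sub_distrib]
    refine Finset.sum_congr rfl fun y _ => ?_
    rw [← mul_sub]
    rfl
  obtain ⟨d, hd⟩ : ∃ d : ZMod n → ℝ, d = fun y => |ψ y - ψ' y| := ⟨_, rfl⟩
  obtain ⟨s, hs⟩ : ∃ s : ZMod n → ℝ, s = fun y => |ψ y| + |ψ' y| := ⟨_, rfl⟩
  have hdn : nr d = nr (fun y => ψ y - ψ' y) := by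
    rw [hd]
    exact nr_abs (fun y => ψ y - ψ' y)
  have hsn : nr s ≤ nr ψ + nr ψ' := by
    rw [hs]
    refine (nr_add (fun y => |ψ y|) (fun y => |ψ' y|)).trans ?_
    rw [nr_abs, nr_abs]
  rw [e]
  calc ‖∑ y, a y * (rem (ψ y - ψ (y - x)) - rem (ψ' y - ψ' (y - x)))‖
      ≤ ∑ y, ‖a y * (rem (ψ y - ψ (y - x)) - rem (ψ' y - ψ' (y - x)))‖ := norm_sum_le _ _
    _ ≤ ∑ y, (d y + d (y - x)) * (s y + s (y - x)) := by
        apply Finset.sum_le_sum
        intro y _
        rw [norm_mul, ha y, one_mul]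
        refine (rem_lip _ _).trans ?_
        have h1 : |ψ y - ψ (y - x) - (ψ' y - ψ' (y - x))| ≤ d y + d (y - x) := by
          rw [hd]
          have : ψ y - ψ (y - x) - (ψ' y - ψ' (y - x)) =
              (ψ y - ψ' y) - (ψ (y - x) - ψ' (y - x)) := by ring
          rw [this]
          exact abs_sub _ _
        have h2 : |ψ y - ψ (y - x)| + |ψ' y - ψ' (y - x)| ≤ s y + s (y - x) := by
          rw [hs]
          have h3 := abs_sub (ψ y) (ψ (y - x))
          have h4 := abs_sub (ψ' y) (ψ' (y - x))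
          simp only
          linarith
        have h5 : 0 ≤ d y + d (y - x) := (abs_nonneg _).trans h1
        exact mul_le_mul h1 h2 (by positivity) h5
    _ ≤ nr (fun y => d y + d (y - x)) * nr (fun y => s y + s (y - x)) :=
        cs_nr _ _
    _ ≤ (2 * nr d) * (2 * nr s) := by
        have h1 : nr (fun y => d y + d (y - x)) ≤ 2 * nr d := by
          refine (nr_add d (fun y => d (y - x))).trans ?_
          rw [nr_shift]
          linarith
        have h2 : nr (fun y => s y + s (y - x)) ≤ 2 * nr s := by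
          refine (nr_add s (fun y => s (y - x))).trans ?_
          rw [nr_shift]
          linarith
        exact mul_le_mul h1 h2 (nr_nonneg _) (by have := nr_nonneg d; linarith)
    _ ≤ (2 * nr d) * (2 * (nr ψ + nr ψ')) := by
        have := nr_nonneg d
        gcongr
    _ = 4 * (nr ψ + nr ψ') * nr (fun y => ψ y - ψ' y) := by
        rw [hdn]
        ring

end Pool.Agent.H34.U
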