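import Pool.Agent.H34.U.UB2

/-!
# Project U2 (MP_0c7934_co): the modules UX and UNI for every odd `n`
-/

namespace Pool.Agent.H34.U

open Matrix Pool.Agent.H26.U

/-- D2 in general: `∑_c 1 / √|sin (2 π c z / n)| = O (φ n)` for every `z ≠ 0` -/
theorem UX2 : ∃ C : ℝ, 0 < C ∧ ∀ (n : ℕ) [NeZero n], Odd n → 3 ≤ n → ∀ z : ZMod n, z ≠ 0 →
    ∑ c : (ZMod n)ˣ, 1 / √|sz ((c : ZMod n) * z)| ≤ C * (Nat.totient n : ℝ) := by
  obtain ⟨C, hC, hB⟩ := UB2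
  refine ⟨C, hC, ?_⟩
  intro n _ hn hn3 x hx
  have hn0 : 0 < n := Nat.pos_of_ne_zero (NeZero.ne n)
  obtain ⟨g, hg⟩ : ∃ g, g = Nat.gcd x.val n := ⟨_, rfl⟩
  have hg0 : 0 < g := by rw [hg]; exact Nat.gcd_pos_of_pos_right _ hn0
  obtain ⟨m, hm⟩ : g ∣ n := by rw [hg]; exact Nat.gcd_dvd_right _ _
  obtain ⟨x', hx'⟩ : g ∣ x.val := by rw [hg]; exact Nat.gcd_dvd_left _ _
  have hm0 : 0 < m := by
    rcases Nat.eq_zero_or_pos m with h | h
    · rw [h, mul_zero] at hm; omega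
    · exact h
  haveI : NeZero m := ⟨hm0.ne'⟩
  have hmn : m ∣ n := ⟨g, by rw [hm, mul_comm]⟩
  have hmodd : Odd m := Odd.of_dvd_nat hn hmn
  have hm1 : m ≠ 1 := by
    intro h
    rw [h, mul_one] at hm
    apply hx
    have h1 : n ∣ x.val := dvd_trans (dvd_of_eq hm) ⟨x', hx'⟩
    have h2 : x.val < n := ZMod.val_lt x
    have h3 : x.val = 0 := Nat.eq_zero_of_dvd_of_lt h1 h2
    exact (ZMod.val_eq_zero x).mp h3
  have hm3 : 3 ≤ m := by
    rcases hmodd with ⟨k, hk⟩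
    omega
  have hcop2 : Nat.Coprime x' m := by
    have h1 : Nat.gcd (g * x') (g * m) = g := by rw [← hx', ← hm, ← hg]
    rw [Nat.gcd_mul_left] at h1
    exact Nat.eq_of_mul_eq_mul_left hg0 (by rw [h1, mul_one])
  obtain ⟨v, hv⟩ : ∃ v : (ZMod m)ˣ, v = ZMod.unitOfCoprime _ hcop2 := ⟨_, rfl⟩
  have hvv : (v : ZMod m) = (x' : ZMod m) := by rw [hv, ZMod.coe_unitOfCoprime]
  have key : ∀ c : (ZMod n)ˣ, sz ((c : ZMod n) * x) =
      sz (((ZMod.unitsMap hmn c * v : (ZMod m)ˣ)) : ZMod m) := by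
    intro c
    have e1 : (c : ZMod n) * x = (((c : ZMod n).val * x.val : ℕ) : ZMod n) := by
      push_cast
      rw [ZMod.natCast_zmod_val, ZMod.natCast_zmod_val]
    have e2 : (((ZMod.unitsMap hmn c * v : (ZMod m)ˣ)) : ZMod m) =
        (((c : ZMod n).val * x' : ℕ) : ZMod m) := by
      rw [Units.val_mul, ZMod.unitsMap_val, hvv]
      push_cast
      rw [ZMod.natCast_val]
    rw [e1, e2, sz_natCast, sz_natCast]
    congr 1
    rw [hx']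
    have hgR : (g : ℝ) ≠ 0 := by exact_mod_cast hg0.ne'
    have hmR : (m : ℝ) ≠ 0 := by exact_mod_cast hm0.ne'
    have hnR : (n : ℝ) = g * m := by exact_mod_cast hm
    rw [hnR]
    push_cast
    field_simp
  have h1 : ∑ c : (ZMod n)ˣ, 1 / √|sz ((c : ZMod n) * x)| =
      ∑ c : (ZMod n)ˣ, (fun u : (ZMod m)ˣ => 1 / √|sz ((u * v : (ZMod m)ˣ) : ZMod m)|)
        (ZMod.unitsMap hmn c) := by
    refine Finset.sum_congr rfl fun c _ => ?_
    simp only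
    rw [key]
  have h2 := sum_surj (ZMod.unitsMap hmn) (ZMod.unitsMap_surjective hmn)
    (fun u : (ZMod m)ˣ => 1 / √|sz ((u * v : (ZMod m)ˣ) : ZMod m)|)
  rw [← h1] at h2
  have h3 : ∑ u : (ZMod m)ˣ, 1 / √|sz ((u * v : (ZMod m)ˣ) : ZMod m)| =
      ∑ u : (ZMod m)ˣ, 1 / √|sz (u : ZMod m)| :=
    Equiv.sum_comp (Equiv.mulRight v) (fun u : (ZMod m)ˣ => 1 / √|sz (u : ZMod m)|)
  rw [h3, ZMod.card_units_eq_totient, ZMod.card_units_eq_totient] at h2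
  have h4 := hB m hmodd hm3
  have hφ : (0 : ℝ) < Nat.totient m := by exact_mod_cast Nat.totient_pos.mpr hm0
  have hφn : (0 : ℝ) ≤ Nat.totient n := by positivity
  have h5 : (Nat.totient m : ℝ) * ∑ c : (ZMod n)ˣ, 1 / √|sz ((c : ZMod n) * x)| ≤
      (Nat.totient m : ℝ) * (C * Nat.totient n) := by
    rw [h2]
    calc (Nat.totient n : ℝ) * ∑ u : (ZMod m)ˣ, 1 / √|sz (u : ZMod m)|
        ≤ (Nat.totient n : ℝ) * (C * Nat.totient m) := mul_le_mul_of_nonneg_left h4 hφn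
      _ = _ := by ring
  exact le_of_mul_le_mul_left h5 hφ

/-- D3 in general -/
theorem UNI2 : ∃ A1 : ℝ, ∀ (n : ℕ) [NeZero n], Odd n → 3 ≤ n →
    ∃ c : Fin 4 → ZMod n, (∀ j, IsUnit (c j)) ∧
      (∀ x : ZMod n, x ^ 2 ≠ 0 → 0 < ∑ j, sz (c j * x ^ 2) ^ 2) ∧
      1 / (n : ℝ) * ∑ x ∈ Finset.univ.filter (fun x : ZMod n => x ^ 2 ≠ 0),
        1 / ∑ j, sz (c j * x ^ 2) ^ 2 ≤ A1 := by
  obtain ⟨C, hC, hB⟩ := UX2
  refine ⟨C ^ 4 / 4, ?_⟩
  intro n _ hn hn3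
  have hn0 : 0 < n := Nat.pos_of_ne_zero (NeZero.ne n)
  have hnR : (0 : ℝ) < n := by exact_mod_cast hn0
  have hne : ∀ (c : (ZMod n)ˣ) (x : ZMod n), x ^ 2 ≠ 0 → sz ((c : ZMod n) * x ^ 2) ≠ 0 := by
    intro c x hx h
    rw [sz_eq_zero_iff hn, c.isUnit.mul_right_eq_zero] at h
    exact hx h
  have hpos : ∀ (c : Fin 4 → (ZMod n)ˣ) (x : ZMod n), x ^ 2 ≠ 0 →
      0 < ∑ j, sz ((c j : ZMod n) * x ^ 2) ^ 2 := by
    intro c x hx
    exact Finset.sum_pos (fun j _ => by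
      have := hne (c j) x hx
      positivity) Finset.univ_nonempty
  have hbd : ∀ (c : Fin 4 → (ZMod n)ˣ) (x : ZMod n), x ^ 2 ≠ 0 →
      1 / ∑ j, sz ((c j : ZMod n) * x ^ 2) ^ 2 ≤
        1 / 4 * ∏ j, (1 / √|sz ((c j : ZMod n) * x ^ 2)|) := by
    intro c x hx
    have h4 : ∀ s : ℝ, s ^ 2 = √|s| ^ 4 := by
      intro s
      have : √|s| ^ 4 = (√|s| ^ 2) ^ 2 := by ring
      rw [this, Real.sq_sqrt (abs_nonneg s), sq_abs]
    have hp : ∀ j, 0 < √|sz ((c j : ZMod n) * x ^ 2)| := by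
      intro j
      exact Real.sqrt_pos.mpr (abs_pos.mpr (hne (c j) x hx))
    have := amgm4 _ _ _ _ (hp 0) (hp 1) (hp 2) (hp 3)
    rw [Fin.sum_univ_four, Fin.prod_univ_four, h4 (sz (((c 0 : (ZMod n)ˣ) : ZMod n) * x ^ 2)),
      h4 (sz (((c 1 : (ZMod n)ˣ) : ZMod n) * x ^ 2)), h4 (sz (((c 2 : (ZMod n)ˣ) : ZMod n) * x ^ 2)),
      h4 (sz (((c 3 : (ZMod n)ˣ) : ZMod n) * x ^ 2))]
    exact this
  -- the average
  have hsum : ∑ c : Fin 4 → (ZMod n)ˣ, (1 / (n : ℝ) *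
      ∑ x ∈ Finset.univ.filter (fun x : ZMod n => x ^ 2 ≠ 0),
      1 / ∑ j, sz ((c j : ZMod n) * x ^ 2) ^ 2) ≤
      ∑ _c : Fin 4 → (ZMod n)ˣ, C ^ 4 / 4 := by
    rw [← Finset.mul_sum, Finset.sum_comm]
    have h1 : ∀ x ∈ Finset.univ.filter (fun x : ZMod n => x ^ 2 ≠ 0),
        ∑ c : Fin 4 → (ZMod n)ˣ, 1 / ∑ j, sz ((c j : ZMod n) * x ^ 2) ^ 2 ≤
          1 / 4 * (C * Nat.totient n) ^ 4 := by
      intro x hx
      have hx0 : x ^ 2 ≠ 0 := (Finset.mem_filter.mp hx).2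
      calc ∑ c : Fin 4 → (ZMod n)ˣ, 1 / ∑ j, sz ((c j : ZMod n) * x ^ 2) ^ 2
          ≤ ∑ c : Fin 4 → (ZMod n)ˣ, 1 / 4 * ∏ j, (1 / √|sz ((c j : ZMod n) * x ^ 2)|) :=
            Finset.sum_le_sum fun c _ => hbd c x hx0
        _ = 1 / 4 * (∑ c : (ZMod n)ˣ, 1 / √|sz ((c : ZMod n) * x ^ 2)|) ^ 4 := by
            rw [← Finset.mul_sum, Fintype.sum_pow]
        _ ≤ 1 / 4 * (C * Nat.totient n) ^ 4 := by
            have h2 := hB n hn hn3 (x ^ 2) hx0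
            have h3 : 0 ≤ ∑ c : (ZMod n)ˣ, 1 / √|sz ((c : ZMod n) * x ^ 2)| :=
              Finset.sum_nonneg fun c _ => by positivity
            gcongr
    have hcard : (Finset.univ.filter (fun x : ZMod n => x ^ 2 ≠ 0)).card ≤ n := by
      calc (Finset.univ.filter (fun x : ZMod n => x ^ 2 ≠ 0)).card
          ≤ (Finset.univ : Finset (ZMod n)).card := Finset.card_filter_le _ _
        _ = n := by rw [Finset.card_univ, ZMod.card]
    have hK : (0 : ℝ) ≤ 1 / 4 * (C * Nat.totient n) ^ 4 := by positivity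
    calc 1 / (n : ℝ) * ∑ x ∈ Finset.univ.filter (fun x : ZMod n => x ^ 2 ≠ 0),
          ∑ c : Fin 4 → (ZMod n)ˣ, 1 / ∑ j, sz ((c j : ZMod n) * x ^ 2) ^ 2
        ≤ 1 / (n : ℝ) * ∑ _x ∈ Finset.univ.filter (fun x : ZMod n => x ^ 2 ≠ 0),
            1 / 4 * (C * Nat.totient n) ^ 4 :=
          mul_le_mul_of_nonneg_left (Finset.sum_le_sum h1) (by positivity)
      _ = 1 / (n : ℝ) * ((Finset.univ.filter (fun x : ZMod n => x ^ 2 ≠ 0)).card *
            (1 / 4 * (C * Nat.totient n) ^ 4)) := by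
          rw [Finset.sum_const, nsmul_eq_mul]
      _ ≤ 1 / (n : ℝ) * (n * (1 / 4 * (C * Nat.totient n) ^ 4)) := by
          apply mul_le_mul_of_nonneg_left _ (by positivity)
          apply mul_le_mul_of_nonneg_right _ hK
          exact_mod_cast hcard
      _ = ∑ _c : Fin 4 → (ZMod n)ˣ, C ^ 4 / 4 := by
          rw [Finset.sum_const, Finset.card_univ, Fintype.card_fun, ZMod.card_units_eq_totient,
            Fintype.card_fin, nsmul_eq_mul]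
          have hφ0 : (Nat.totient n : ℝ) ≠ 0 := by
            exact_mod_cast (Nat.totient_pos.mpr hn0).ne'
          push_cast
          field_simp
  obtain ⟨c, _, hc⟩ := Finset.exists_le_of_sum_le Finset.univ_nonempty hsum
  exact ⟨fun j => (c j : ZMod n), fun j => (c j).isUnit, fun x hx => hpos c x hx, hc⟩

end Pool.Agent.H34.U
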