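import Pool.Agent.H26.U.Ez

/-!
# Project U (MP_0c7934_co), module EXP: the autocorrelation of a perturbed chirp
-/

namespace Pool.Agent.H34.U

open Matrix Pool.Agent.H26.U

theorem EXP : S_EXP := by
  intro n _ hn c hc ψ x hx
  have h2 : IsUnit (2 : ZMod n) := by
    have : ((2 : ℕ) : ZMod n) = 2 := by norm_num
    rw [← this, ZMod.isUnit_iff_coprime]
    exact (Nat.coprime_two_left).mpr hn
  have hne : 2 * c * x ≠ 0 := by
    intro h
    rw [mul_assoc] at h
    exact hx ((hc.mul_right_eq_zero).mp ((h2.mul_right_eq_zero).mp h))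
  -- the terms
  have e1 : ∀ y : ZMod n, ez (c * y ^ 2) * Complex.exp (Complex.I * ψ y) *
      star (ez (c * (y - x) ^ 2) * Complex.exp (Complex.I * ψ (y - x))) =
      ez (c * (2 * x * y - x ^ 2)) * Complex.exp (Complex.I * ((ψ y - ψ (y - x) : ℝ) : ℂ)) := by
    intro y
    have a1 : c * (2 * x * y - x ^ 2) = c * y ^ 2 - c * (y - x) ^ 2 := by ring
    have a2 : star (Complex.exp (Complex.I * ψ (y - x))) =
        Complex.exp (-(Complex.I * ψ (y - x))) := by
      rw [Complex.star_def, ← Complex.exp_conj]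
      congr 1
      rw [map_mul, Complex.conj_I, Complex.conj_ofReal]
      ring
    rw [a1, ez_sub, star_mul', a2]
    have a3 : Complex.exp (Complex.I * ((ψ y - ψ (y - x) : ℝ) : ℂ)) =
        Complex.exp (Complex.I * ψ y) * Complex.exp (-(Complex.I * ψ (y - x))) := by
      rw [← Complex.exp_add]
      congr 1
      push_cast
      ring
    rw [a3]
    ring
  have e2 : ∀ y : ZMod n, ez (c * (2 * x * y - x ^ 2)) = ez (-(c * x ^ 2)) * ez (2 * c * x * y) := by
    intro y
    rw [← ez_add]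
    congr 1
    ring
  have s0 : ∑ y : ZMod n, ez (2 * c * x * y) = 0 := by
    rw [sum_ez_mul, if_neg hne]
  have s1 : ∑ y : ZMod n, (ψ (y - x) : ℂ) * ez (2 * c * x * y) =
      ez (2 * (c * x ^ 2)) * ∑ y : ZMod n, (ψ y : ℂ) * ez (2 * c * x * y) := by
    rw [← Equiv.sum_comp (Equiv.addRight x), Finset.mul_sum]
    refine Finset.sum_congr rfl fun y _ => ?_
    simp only [Equiv.coe_addRight, add_sub_cancel_right]
    rw [show 2 * c * x * (y + x) = 2 * (c * x ^ 2) + 2 * c * x * y by ring, ez_add]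
    ring
  rw [acf]
  simp only [e1]
  have e3 : ∀ y : ZMod n, ez (c * (2 * x * y - x ^ 2)) *
      Complex.exp (Complex.I * ((ψ y - ψ (y - x) : ℝ) : ℂ)) =
      ez (-(c * x ^ 2)) * ez (2 * c * x * y) +
      Complex.I * ez (-(c * x ^ 2)) * ((ψ y : ℂ) * ez (2 * c * x * y) -
        (ψ (y - x) : ℂ) * ez (2 * c * x * y)) +
      ez (c * (2 * x * y - x ^ 2)) * (Complex.exp (Complex.I * ((ψ y - ψ (y - x) : ℝ) : ℂ))
        - 1 - Complex.I * ((ψ y - ψ (y - x) : ℝ) : ℂ)) := by
    intro y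
    rw [e2]
    push_cast
    ring
  simp only [e3]
  rw [Finset.sum_add_distrib, Finset.sum_add_distrib, ← Finset.mul_sum, s0, mul_zero, zero_add,
    ← Finset.mul_sum, Finset.sum_sub_distrib, s1]
  congr 1
  have h3 := two_I_sz (c * x ^ 2)
  have h4 : ez (-(c * x ^ 2)) * ez (2 * (c * x ^ 2)) = ez (c * x ^ 2) := by
    rw [← ez_add]
    congr 1
    ring
  have h5 : Complex.I * (ez (-(c * x ^ 2)) - ez (c * x ^ 2)) = 2 * (sz (c * x ^ 2) : ℂ) := by
    have : ez (-(c * x ^ 2)) - ez (c * x ^ 2) = -(2 * Complex.I * (sz (c * x ^ 2) : ℂ)) := by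
      rw [h3]; ring
    rw [this]
    have hI := Complex.I_mul_I
    linear_combination (-2 * (sz (c * x ^ 2) : ℂ)) * hI
  rw [← h5]
  linear_combination (-Complex.I * ∑ y : ZMod n, (ψ y : ℂ) * ez (2 * c * x * y)) * h4

end Pool.Agent.H34.U
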